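import Pool.Agent.H82.EUC.Stmts5

/-!
Row BKE of the board euc: the isomorphism of closed sets of blocks with stable matchings.
-/

set_option autoImplicit false

namespace Pool.EUC

open Classical in
theorem bke_symm_mem {B : Type} (S : Set B) (w : B × Bool) (h : w.1 ∈ S) :
    (sg S).symm w = (w.1, !w.2) := by
  show (w.1, if w.1 ∈ S then !w.2 else w.2) = (w.1, !w.2)
  rw [if_pos h]

open Classical in
theorem bke_symm_not {B : Type} (S : Set B) (w : B × Bool) (h : w.1 ∉ S) :
    (sg S).symm w = w := by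
  show (w.1, if w.1 ∈ S then !w.2 else w.2) = w
  rw [if_neg h]

theorem bke_inj {B : Type} (S T : Set B) (h : sg S = sg T) : S ⊆ T := by
  intro b hb
  by_contra hT
  have h1 := bke_symm_mem S (b, true) hb
  have h2 := bke_symm_not T (b, true) hT
  rw [h, h2] at h1
  have h3 := congrArg Prod.snd h1
  exact Bool.noConfusion h3

theorem bke_thm (h1 : BKS_S) (h2 : BKC_S) : BKE_S := by
  intro B _ R dM dW hM hW hB
  refine ⟨Equiv.ofBijective
    (fun S => (⟨sg S.1, h1 B R dM dW hB S.1 S.2⟩ : {σ : Equiv.Perm (B × Bool) // Stb dM dW σ}))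
    ⟨?_, ?_⟩, ?_⟩
  · intro S T h
    have h3 : sg S.1 = sg T.1 := congrArg Subtype.val h
    exact Subtype.ext (Set.Subset.antisymm (bke_inj _ _ h3) (bke_inj _ _ h3.symm))
  · rintro ⟨σ, hσ⟩
    obtain ⟨S, hS, rfl⟩ := h2 B R dM dW hM hW hB σ hσ
    exact ⟨⟨S, hS⟩, rfl⟩
  · rintro ⟨S, hS⟩ ⟨T, hT⟩
    show S ⊆ T ↔ WLe dW (sg S) (sg T)
    constructor
    · intro h w
      by_cases h3 : w.1 ∈ S
      · rw [bke_symm_mem S w h3, bke_symm_mem T w (h h3)]
      · rw [bke_symm_not S w h3]
        by_cases h4 : w.1 ∈ T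
        · rw [bke_symm_mem T w h4]
          exact (hB.inW w.1 w.2).le
        · rw [bke_symm_not T w h4]
    · intro h b hb
      by_contra h3
      have h4 := h (b, true)
      rw [bke_symm_mem S (b, true) hb, bke_symm_not T (b, true) h3] at h4
      exact absurd (hB.inW b true) (not_lt.2 h4)

end Pool.EUC
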