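import Pool.Agent.H82.EUC.Stmts3

/-!
Row DXG of the board euc: no crossing.
-/

set_option autoImplicit false

namespace Pool.EUC

theorem dxg_thm (h1 : OPP_S) (h2 : DMG_S) : DXG_S := by
  intro A V G dM dW hM hW F hF u v k l huv hkl huk hul hvk hvl m w hm hw e1 e2
  have hmeet := hF.m2 u v k l huv hkl huk hul hvk hvl
  have hsX := hF.sc u v l huv hul hvl
  have hsb := hF.sb u v huv
  have hle := hF.bc u v l huv hul hvl
  have e3 : dM m (F.b u v m) ≤ dM m (F.c u v l m) := h1 A dM dW hM hW _ _ hsb hsX hle m
  have e4 : (F.a l).symm w = (F.c u v l).symm w := by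
    have h3 := hmeet.1 w
    rcases max_choice (dW w ((F.c u v l).symm w)) (dW w ((F.b k l).symm w)) with h4 | h4
    · rw [h4] at h3
      exact hW w h3
    · rw [h4] at h3
      exfalso
      apply hw
      rw [hF.bsymm l k]
      exact hW w h3
  by_cases hX : F.c u v l m = w
  · have h5 : (F.a l).symm w = m := by
      rw [e4, ← hX, Equiv.symm_apply_apply]
    have h6 : F.a l m = w := by
      rw [← h5, Equiv.apply_symm_apply]
    apply h2 A V G dM dW hM hW F hF u v k l huv hkl huk hul hvk hvl m hm
    intro h7
    apply hw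
    rw [h5, ← h6, h7, Equiv.symm_apply_apply]
  · have h8 : dM m w < dM m (F.c u v l m) := by
      refine lt_of_le_of_ne (e1.trans e3) ?_
      intro h9
      exact hX (hM m h9).symm
    have h10 : dW w m < dW w ((F.c u v l).symm w) := by
      rw [e4] at e2
      refine lt_of_le_of_ne e2 ?_
      intro h9
      apply hX
      have h11 := hW w h9
      rw [h11, Equiv.apply_symm_apply]
    exact hsX m w ⟨h8, h10⟩

end Pool.EUC
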